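import Mathlib
import Pool.Agent.H482.WT.Two

/-! The moments of the sums over a prescribed set of primes, for the characters of one modulus. -/

set_option autoImplicit false

namespace Pool.Agent.H482.PP

open Finset Real

open Pool.Agent.H482.WT

/-- the characters modulo `q`, as primitive characters -/
noncomputable def pr (q : ℕ) (χ : DirichletCharacter ℂ q) : Σ f : ℕ, DirichletCharacter ℂ f :=
  ⟨χ.conductor, χ.primitiveCharacter⟩

theorem pr_inj (q : ℕ) : Function.Injective (pr q) := by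
  classical
  set r : (Σ f : ℕ, DirichletCharacter ℂ f) → DirichletCharacter ℂ q := fun e =>
    if h : e.1 ∣ q then DirichletCharacter.changeLevel h e.2 else 1 with hr
  have h1 : ∀ χ : DirichletCharacter ℂ q, r (pr q χ) = χ := by
    intro χ
    simp only [hr, pr]
    rw [dif_pos χ.conductor_dvd_level]
    exact χ.changeLevel_primitiveCharacter
  intro χ χ' h
  have h2 := congrArg r h
  rwa [h1, h1] at h2

theorem mom_q (hM : S_MOM) (θ A : ℝ) (hθ : 0 < θ) (hA : 0 < A) : ∃ (m q0 : ℕ) (B : ℝ), 1 ≤ m ∧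
    0 < B ∧ ∀ q : ℕ, q0 ≤ q → 1 ≤ q ∧ ∀ P : Finset ℕ, (∀ p ∈ P, p.Prime ∧ (q : ℝ) ^ θ < p ∧
      (p : ℝ) ≤ (q : ℝ) ^ A ∧ p.Coprime q) → ∀ (inst : NeZero q),
      ∑ χ : DirichletCharacter ℂ q, ‖∑ p ∈ P, χ (p : ZMod q) / p‖ ^ (2 * m) ≤ B := by
  classical
  obtain ⟨C, hC, hC1⟩ := hM
  obtain ⟨W, q1, hW0, hW⟩ := wt_bound θ A hθ
  obtain ⟨q2, hq2⟩ := scale θ hθ
  obtain ⟨k, hk⟩ := exists_nat_ge (4 / θ + 2)
  refine ⟨k + 1, max q1 (max q2 2), C * ((k + 1 : ℕ) : ℝ) ^ (k + 3) * W ^ k * (1 + 2 * A / θ) ^ 2,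
    by omega, by positivity, fun q hq => ?_⟩
  have hq1' : q1 ≤ q := (le_max_left _ _).trans hq
  have hq2' : q2 ≤ q := ((le_max_left _ _).trans (le_max_right _ _)).trans hq
  have hq3' : 2 ≤ q := ((le_max_right _ _).trans (le_max_right _ _)).trans hq
  refine ⟨by omega, fun P hP inst => ?_⟩
  obtain ⟨hz2, hzq, -⟩ := hq2 q hq2'
  have hWq := hW q hq1'
  set z := ⌊(q : ℝ) ^ θ⌋₊ with hz
  set y := ⌊(q : ℝ) ^ A⌋₊ with hy
  have hqr : (1 : ℝ) < q := by exact_mod_cast (by omega : 1 < q)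
  have hlq : 0 < log (q : ℝ) := Real.log_pos hqr
  have hPP : P ⊆ PR z y := by
    intro p hp
    obtain ⟨hp1, hp2, hp3, -⟩ := hP p hp
    unfold PR
    rw [mem_filter, mem_Ioc]
    refine ⟨⟨?_, ?_⟩, hp1⟩
    · rw [hz, Nat.floor_lt (by positivity)]
      exact hp2
    · rw [hy, Nat.le_floor_iff (by positivity)]
      exact hp3
  rcases lt_or_ge y z with hyz | hyz
  · have h1 : P = ∅ := by
      apply subset_empty.1
      refine hPP.trans ?_
      unfold PR
      rw [Ioc_eq_empty (by omega), filter_empty]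
    rw [h1]
    simp only [sum_empty, norm_zero]
    rw [sum_eq_zero (fun χ _ => by rw [zero_pow (by omega)])]
    positivity
  have hz1 : (1 : ℝ) < z := by exact_mod_cast (by omega : 1 < z)
  have hlz : 0 < log (z : ℝ) := Real.log_pos hz1
  have hlzq : θ / 2 * log q ≤ log (z : ℝ) := by
    have h1 := Real.log_le_log (by positivity) hzq
    rwa [Real.log_rpow (by linarith)] at h1
  have hly : log (y : ℝ) ≤ A * log q := by
    have hy0 : (0 : ℝ) < y := by exact_mod_cast (by omega : 0 < y)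
    have h1 : (y : ℝ) ≤ (q : ℝ) ^ A := Nat.floor_le (by positivity)
    have h2 := Real.log_le_log hy0 h1
    rwa [Real.log_rpow (by linarith)] at h2
  have hratio : log (y : ℝ) / log z ≤ 2 * A / θ := by
    rw [div_le_iff₀ hlz]
    calc log (y : ℝ) ≤ A * log q := hly
      _ = 2 * A / θ * (θ / 2 * log q) := by field_simp
      _ ≤ 2 * A / θ * log z := mul_le_mul_of_nonneg_left hlzq (by positivity)
  have hratio0 : 0 ≤ log (y : ℝ) / log z :=
    div_nonneg (Real.log_nonneg (by exact_mod_cast (by omega : 1 ≤ y))) hlz.le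
  have hpow : (q * z) ^ 2 ≤ z ^ (k + 1) := by
    have h1 : (((q * z) ^ 2 : ℕ) : ℝ) ≤ ((z ^ (k + 1) : ℕ) : ℝ) := by
      push_cast
      have hq0 : (0 : ℝ) < q := by linarith
      have hz0 : (0 : ℝ) < z := by linarith
      have h2 : log (((q : ℝ) * z) ^ 2) ≤ log ((z : ℝ) ^ (k + 1)) := by
        rw [Real.log_pow, Real.log_pow, Real.log_mul hq0.ne' hz0.ne']
        push_cast
        have h3 : log (q : ℝ) ≤ 2 / θ * log z := by
          calc log (q : ℝ) = 2 / θ * (θ / 2 * log q) := by field_simp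
            _ ≤ 2 / θ * log z := mul_le_mul_of_nonneg_left hlzq (by positivity)
        have h4 : 4 / θ = 2 * (2 / θ) := by ring
        nlinarith
      exact (Real.log_le_log_iff (by positivity) (by positivity)).1 h2
    exact_mod_cast h1
  have h1 := hC1 z y k q hz2 hyz hpow (fun p => if p ∈ P then 1 else 0)
    (fun n => by split_ifs <;> simp)
  -- the characters modulo `q` inject
  have hsum : ∀ (f : ℕ) (χ : DirichletCharacter ℂ f),
      ∑ p ∈ PR z y, (if p ∈ P then (1 : ℂ) else 0) * χ (p : ZMod f) / p =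
        ∑ p ∈ P, χ (p : ZMod f) / p := by
    intro f χ
    have h2 : ∀ p ∈ PR z y, (if p ∈ P then (1 : ℂ) else 0) * χ (p : ZMod f) / p =
        if p ∈ P then χ (p : ZMod f) / p else 0 := by
      intro p _
      split_ifs <;> simp
    rw [sum_congr rfl h2, sum_ite_mem, inter_eq_right.2 hPP]
  set g : (Σ f : ℕ, DirichletCharacter ℂ f) → ℝ := fun e =>
    ‖∑ p ∈ P, e.2 (p : ZMod e.1) / p‖ ^ (2 * (k + 1)) with hg
  have hPp := PR_prime hPP
  have hdv : dv P q = 0 := by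
    unfold dv
    have h2 : P.filter (fun b => b ∣ q) = ∅ := by
      rw [filter_eq_empty_iff]
      intro b hb hbq
      obtain ⟨hb1, -, -, hb4⟩ := hP b hb
      exact hb1.one_lt.ne' (Nat.Coprime.eq_one_of_dvd hb4 hbq)
    rw [h2]
    unfold wt
    exact sum_empty
  have h2 : ∑ χ : DirichletCharacter ℂ q, ‖∑ p ∈ P, χ (p : ZMod q) / p‖ ^ (2 * (k + 1)) ≤
      ∑ χ : DirichletCharacter ℂ q, g (pr q χ) := by
    apply sum_le_sum
    intro χ _
    simp only [hg, pr]
    apply pow_le_pow_left₀ (norm_nonneg _)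
    have h3 := sum_prim χ P hPp
    rw [hdv, add_zero] at h3
    exact h3
  have h3 : ∑ χ : DirichletCharacter ℂ q, g (pr q χ) ≤
      ∑ e ∈ (Icc 1 q).sigma (fun f => Pm f), g e := by
    rw [← sum_image (f := g) (s := (univ : Finset (DirichletCharacter ℂ q))) (g := pr q)
      (fun χ _ χ' _ h => pr_inj q h)]
    apply sum_le_sum_of_subset_of_nonneg
    · intro e he
      rw [mem_image] at he
      obtain ⟨χ, -, rfl⟩ := he
      rw [mem_sigma, mem_Icc]
      have hcn : χ.conductor ∣ q := χ.conductor_dvd_level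
      refine ⟨⟨Nat.pos_of_dvd_of_pos hcn (by omega), Nat.le_of_dvd (by omega) hcn⟩, ?_⟩
      rw [mem_Pm]
      exact χ.primitiveCharacter_isPrimitive
    · intro e _ _
      positivity
  have h4 : ∑ e ∈ (Icc 1 q).sigma (fun f => Pm f), g e =
      ∑ f ∈ Icc 1 q, ∑ χ ∈ Pm f, ‖∑ p ∈ P, χ (p : ZMod f) / p‖ ^ (2 * (k + 1)) := by
    rw [sum_sigma]
  have h5 : ∑ f ∈ Icc 1 q, ∑ χ ∈ Pm f, ‖∑ p ∈ P, χ (p : ZMod f) / p‖ ^ (2 * (k + 1)) ≤
      C * ((k + 1 : ℕ) : ℝ) ^ (k + 3) * (∑ p ∈ PR z y, 1 / (p : ℝ)) ^ k *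
        (1 + Real.log y / Real.log z) ^ 2 := by
    simp only [hsum] at h1
    exact h1
  refine (h2.trans (h3.trans (h4.le.trans h5))).trans ?_
  have h6 : ∑ p ∈ PR z y, 1 / (p : ℝ) ≤ W := hWq
  have h7 : 0 ≤ ∑ p ∈ PR z y, 1 / (p : ℝ) := sum_nonneg fun _ _ => by positivity
  have h8 : (∑ p ∈ PR z y, 1 / (p : ℝ)) ^ k ≤ W ^ k := pow_le_pow_left₀ h7 h6 k
  have h9 : (1 + Real.log y / Real.log z) ^ 2 ≤ (1 + 2 * A / θ) ^ 2 :=
    pow_le_pow_left₀ (by linarith) (by linarith) 2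
  apply mul_le_mul _ h9 (by positivity) (by positivity)
  exact mul_le_mul_of_nonneg_left h8 (by positivity)

end Pool.Agent.H482.PP
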