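import Mathlib

/-!
Project PP (helper482, `MP_42948a_nt`): products of boundedly many primes of a prescribed set in
residue classes.  Statements of the tasks.
-/

set_option autoImplicit false

namespace Pool.Agent.H482.PP

open Finset

/-- task ROO: if a weighted sum of roots of unity of order `d` is nearly as large as possible, then one
value is taken with nearly the full weight -/
def S_ROO : Prop := ∀ (P : Finset ℕ) (ω : ℕ → ℝ) (z : ℕ → ℂ) (d : ℕ) (δ : ℝ), 1 ≤ d → 0 ≤ δ →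
  δ ≤ 1 → (∀ p ∈ P, 0 ≤ ω p) → 0 < ∑ p ∈ P, ω p → (∀ p ∈ P, z p ^ d = 1) →
  (1 - δ) * ∑ p ∈ P, ω p ≤ ‖∑ p ∈ P, (ω p : ℂ) * z p‖ →
  ∃ p0 ∈ P, ∑ p ∈ P.filter (fun p => z p ≠ z p0), ω p ≤ δ * (d : ℝ) ^ 2 / 4 * ∑ p ∈ P, ω p

/-- task POW: powers of unit vectors which nearly have the same direction -/
def S_POW : Prop := ∀ (P : Finset ℕ) (ω : ℕ → ℝ) (z : ℕ → ℂ) (j : ℕ) (δ : ℝ), 0 ≤ δ →
  δ ≤ 1 → 8 * δ * (j : ℝ) ^ 2 ≤ 3 → (∀ p ∈ P, 0 ≤ ω p) → (∀ p ∈ P, ‖z p‖ = 1) →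
  (1 - δ) * ∑ p ∈ P, ω p ≤ ‖∑ p ∈ P, (ω p : ℂ) * z p‖ →
  (∑ p ∈ P, ω p) / 2 ≤ ‖∑ p ∈ P, (ω p : ℂ) * z p ^ j‖

/-- task GRP: products of `N` elements of a set containing the identity, modulo a subgroup of index at
most `N` -/
def S_GRP : Prop := ∀ (G : Type) [CommGroup G] [Finite G] (H : Subgroup G) (T : Set G) (N : ℕ),
  (1 : G) ∈ T → H.index ≤ N → ∀ g ∈ Subgroup.closure (T ∪ (H : Set G)),
    ∃ t : Fin N → G, (∀ i, t i ∈ T) ∧ ∃ h ∈ H, g = (∏ i, t i) * h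

/-- task ORT: orthogonality of the characters for products of `k` elements of a set -/
def S_ORT : Prop := ∀ (q : ℕ) [NeZero q] (P : Finset ℕ) (ω : ℕ → ℂ) (k : ℕ) (a : (ZMod q)ˣ),
  (∀ w : Fin k → ℕ, (∀ i, w i ∈ P) → ((∏ i, w i : ℕ) : ZMod q) ≠ a) →
    ∑ χ : DirichletCharacter ℂ q, χ⁻¹ (a : ZMod q) * (∑ p ∈ P, ω p * χ (p : ZMod q)) ^ k = 0

end Pool.Agent.H482.PP
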