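import Mathlib
import Pool.Agent.H482.PP.Stm
import Pool.Agent.H482.PP.Momq

/-! The popular part of a prescribed set of primes. -/

set_option autoImplicit false

namespace Pool.Agent.H482.PP

open Finset Real

open Pool.Agent.H482.WT (wt wt_nonneg wt_mono)

/-- the sum of a character over a set of primes -/
noncomputable def SS {q : ℕ} (P : Finset ℕ) (χ : DirichletCharacter ℂ q) : ℂ :=
  ∑ p ∈ P, χ (p : ZMod q) / p

open Classical in
/-- the characters which are constant on `P` -/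
noncomputable def Cst (q : ℕ) [NeZero q] (P : Finset ℕ) : Finset (DirichletCharacter ℂ q) :=
  univ.filter (fun χ => ∀ p ∈ P, ∀ p' ∈ P, χ (p : ZMod q) = χ (p' : ZMod q))

theorem mem_Cst {q : ℕ} [NeZero q] {P : Finset ℕ} {χ : DirichletCharacter ℂ q} : χ ∈ Cst q P ↔
    ∀ p ∈ P, ∀ p' ∈ P, χ (p : ZMod q) = χ (p' : ZMod q) := by
  unfold Cst
  rw [mem_filter]
  exact ⟨fun h => h.2, fun h => ⟨mem_univ _, h⟩⟩

theorem chi_norm {q : ℕ} (χ : DirichletCharacter ℂ q) {p : ℕ} (hp : p.Coprime q) :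
    ‖χ (p : ZMod q)‖ = 1 := by
  have h1 : IsUnit (p : ZMod q) := (ZMod.isUnit_iff_coprime p q).2 hp
  obtain ⟨u, hu⟩ := h1
  rw [← hu]
  exact DirichletCharacter.unit_norm_eq_one χ u

theorem SS_eq {q : ℕ} (P : Finset ℕ) (χ : DirichletCharacter ℂ q) :
    SS P χ = ∑ p ∈ P, (((1 / (p : ℝ) : ℝ)) : ℂ) * χ (p : ZMod q) := by
  unfold SS
  apply sum_congr rfl
  intro p _
  push_cast
  ring

theorem SS_const {q : ℕ} [NeZero q] {P : Finset ℕ} {χ : DirichletCharacter ℂ q} (h : χ ∈ Cst q P)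
    {g : ℕ} (hg : g ∈ P) : SS P χ = χ (g : ZMod q) * ((wt P : ℝ) : ℂ) := by
  rw [mem_Cst] at h
  rw [SS_eq]
  unfold wt
  push_cast
  rw [mul_sum]
  apply sum_congr rfl
  intro p hp
  rw [h p hp g hg]
  ring

theorem card_large {q : ℕ} [NeZero q] (P : Finset ℕ) (m : ℕ) (B t : ℝ) (ht : 0 < t)
    (hB : ∑ χ : DirichletCharacter ℂ q, ‖SS P χ‖ ^ (2 * m) ≤ B)
    (X : Finset (DirichletCharacter ℂ q)) (hX : ∀ χ ∈ X, t ≤ ‖SS P χ‖) :
    (X.card : ℝ) ≤ B / t ^ (2 * m) := by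
  rw [le_div_iff₀ (by positivity)]
  calc (X.card : ℝ) * t ^ (2 * m) = ∑ _χ ∈ X, t ^ (2 * m) := by rw [sum_const, nsmul_eq_mul]
    _ ≤ ∑ χ ∈ X, ‖SS P χ‖ ^ (2 * m) :=
        sum_le_sum fun χ hχ => pow_le_pow_left₀ ht.le (hX χ hχ) _
    _ ≤ ∑ χ : DirichletCharacter ℂ q, ‖SS P χ‖ ^ (2 * m) :=
        sum_le_sum_of_subset_of_nonneg (subset_univ _) fun _ _ _ => by positivity
    _ ≤ B := hB

/-- one step of the refinement -/
theorem step (hR : S_ROO) (hW : S_POW) {q : ℕ} [NeZero q] (P : Finset ℕ) (hP : ∀ p ∈ P, p.Coprime q)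
    (m N : ℕ) (B t δ ε : ℝ) (ht : 0 < t) (hB : ∑ χ : DirichletCharacter ℂ q, ‖SS P χ‖ ^ (2 * m) ≤ B)
    (htP : t ≤ wt P / 2) (hN : B / t ^ (2 * m) ≤ N) (hδ : 0 ≤ δ) (hδ1 : 8 * δ * ((N : ℝ) + 1) ^ 2 ≤ 3)
    (hδ2 : δ * (N : ℝ) ^ 2 / 4 ≤ ε) (χ : DirichletCharacter ℂ q)
    (hχ : (1 - δ) * wt P ≤ ‖SS P χ‖) :
    ∃ P' ⊆ P, (1 - ε) * wt P ≤ wt P' ∧ P'.Nonempty ∧ ∀ p ∈ P', ∀ p' ∈ P',
      χ (p : ZMod q) = χ (p' : ZMod q) := by
  classical
  have hw : 0 < wt P := by linarith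
  have hδle : δ ≤ 1 := by
    have h1 : (1 : ℝ) ≤ ((N : ℝ) + 1) ^ 2 := one_le_pow₀ (by linarith [(Nat.cast_nonneg N : (0:ℝ) ≤ N)])
    nlinarith
  have hw' : ∑ p ∈ P, 1 / (p : ℝ) = wt P := rfl
  -- the powers are large
  have hpow : ∀ j ∈ Icc 1 (N + 1), t ≤ ‖SS P (χ ^ j)‖ := by
    intro j hj
    rw [mem_Icc] at hj
    have h1 := hW P (fun p => 1 / (p : ℝ)) (fun p => χ (p : ZMod q)) j δ hδ hδle (by
      have h2 : (j : ℝ) ≤ (N : ℝ) + 1 := by exact_mod_cast hj.2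
      have h3 : (j : ℝ) ^ 2 ≤ ((N : ℝ) + 1) ^ 2 := pow_le_pow_left₀ (Nat.cast_nonneg _) h2 2
      have h4 : 8 * δ * (j : ℝ) ^ 2 ≤ 8 * δ * ((N : ℝ) + 1) ^ 2 :=
        mul_le_mul_of_nonneg_left h3 (by positivity)
      linarith) (fun p _ => by positivity) (fun p hp => chi_norm χ (hP p hp)) (by
        rw [hw', ← SS_eq]; exact hχ)
    rw [hw'] at h1
    refine htP.trans (h1.trans (le_of_eq ?_))
    rw [SS_eq]
    congr 1
    apply sum_congr rfl
    intro p hp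
    have hu : IsUnit (p : ZMod q) := (ZMod.isUnit_iff_coprime p q).2 (hP p hp)
    obtain ⟨u, hu⟩ := hu
    rw [← hu, MulChar.pow_apply_coe]
  -- two powers coincide
  have hcard : ((Icc 1 (N + 1)).image (fun j => χ ^ j)).card < (Icc 1 (N + 1)).card := by
    have h1 := card_large P m B t ht hB ((Icc 1 (N + 1)).image (fun j => χ ^ j)) (by
      intro ψ hψ
      rw [mem_image] at hψ
      obtain ⟨j, hj, rfl⟩ := hψ
      exact hpow j hj)
    have h2 : (((Icc 1 (N + 1)).image (fun j => χ ^ j)).card : ℝ) ≤ N := h1.trans hN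
    have h3 : ((Icc 1 (N + 1)).image (fun j => χ ^ j)).card ≤ N := by exact_mod_cast h2
    rw [Nat.card_Icc]
    omega
  obtain ⟨i, hi, j, hj, hij, heq⟩ := exists_ne_map_eq_of_card_lt_of_maps_to hcard
    (fun j hj => mem_image_of_mem (fun j => χ ^ j) hj)
  obtain ⟨d, hd1, hdN, hd⟩ : ∃ d : ℕ, 1 ≤ d ∧ d ≤ N ∧ χ ^ d = 1 := by
    rw [mem_Icc] at hi hj
    rcases lt_or_gt_of_ne hij with h | h
    · refine ⟨j - i, by omega, by omega, ?_⟩
      have h1 : χ ^ i * χ ^ (j - i) = χ ^ i * 1 := by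
        rw [← pow_add, mul_one]
        have : i + (j - i) = j := by omega
        rw [this]
        exact heq.symm
      exact mul_left_cancel h1
    · refine ⟨i - j, by omega, by omega, ?_⟩
      have h1 : χ ^ j * χ ^ (i - j) = χ ^ j * 1 := by
        rw [← pow_add, mul_one]
        have : j + (i - j) = i := by omega
        rw [this]
        exact heq
      exact mul_left_cancel h1
  obtain ⟨p0, hp0, h2⟩ := hR P (fun p => 1 / (p : ℝ)) (fun p => χ (p : ZMod q)) d δ hd1 hδ hδle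
    (fun p _ => by positivity) (by rw [hw']; exact hw) (by
      intro p hp
      have hu : IsUnit (p : ZMod q) := (ZMod.isUnit_iff_coprime p q).2 (hP p hp)
      obtain ⟨u, hu⟩ := hu
      rw [← hu, ← MulChar.pow_apply_coe, hd, MulChar.one_apply_coe]) (by
        rw [hw', ← SS_eq]; exact hχ)
  refine ⟨P.filter (fun p => χ (p : ZMod q) = χ (p0 : ZMod q)), filter_subset _ _, ?_,
    ⟨p0, mem_filter.2 ⟨hp0, rfl⟩⟩, ?_⟩
  · have h3 : wt (P.filter (fun p => χ (p : ZMod q) = χ (p0 : ZMod q))) +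
        ∑ p ∈ P.filter (fun p : ℕ => χ (p : ZMod q) ≠ χ (p0 : ZMod q)), 1 / (p : ℝ) = wt P := by
      unfold wt
      exact sum_filter_add_sum_filter_not P _ _
    rw [hw'] at h2
    have h4 : δ * (d : ℝ) ^ 2 / 4 ≤ ε := by
      have h5 : (d : ℝ) ^ 2 ≤ (N : ℝ) ^ 2 :=
        pow_le_pow_left₀ (Nat.cast_nonneg _) (by exact_mod_cast hdN) 2
      have h6 : δ * (d : ℝ) ^ 2 ≤ δ * (N : ℝ) ^ 2 := mul_le_mul_of_nonneg_left h5 hδ
      linarith
    have h5 : δ * (d : ℝ) ^ 2 / 4 * wt P ≤ ε * wt P := mul_le_mul_of_nonneg_right h4 hw.le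
    linarith
  · intro p hp p' hp'
    rw [mem_filter] at hp hp'
    rw [hp.2, hp'.2]

/-- the popular part -/
theorem sel (hR : S_ROO) (hW : S_POW) {q : ℕ} [NeZero q] (P : Finset ℕ) (hP : ∀ p ∈ P, p.Coprime q)
    (m N : ℕ) (B t δ ε : ℝ) (ht : 0 < t)
    (hB : ∀ P' ⊆ P, ∑ χ : DirichletCharacter ℂ q, ‖SS P' χ‖ ^ (2 * m) ≤ B)
    (htP : t ≤ 3 / 8 * wt P) (hN : B / t ^ (2 * m) ≤ N) (hδ : 0 ≤ δ)
    (hδ1 : 8 * δ * ((N : ℝ) + 1) ^ 2 ≤ 3)
    (hδ2 : δ * (N : ℝ) ^ 2 / 4 ≤ ε) (hε : ((N : ℝ) + 1) * ε ≤ 1 / 4) :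
    ∃ P' ⊆ P, 3 / 4 * wt P ≤ wt P' ∧ P'.Nonempty ∧ (Cst q P').card ≤ N ∧
      ∀ χ : DirichletCharacter ℂ q, χ ∉ Cst q P' → ‖SS P' χ‖ < (1 - δ) * wt P' := by
  classical
  have hw : 0 < wt P := by linarith
  have hε0 : 0 ≤ ε := by
    have : 0 ≤ δ * (N : ℝ) ^ 2 / 4 := by positivity
    linarith
  set F := P.powerset.filter (fun P' => (1 - (Cst q P').card * ε) * wt P ≤ wt P' ∧
    3 / 4 * wt P ≤ wt P') with hF
  have hPF : P ∈ F := by
    rw [hF, mem_filter, mem_powerset]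
    refine ⟨subset_refl _, ?_, by linarith⟩
    have h1 : 0 ≤ ((Cst q P).card : ℝ) * ε * wt P := by positivity
    linarith
  -- the number of the constant characters
  have hcst : ∀ P' ∈ F, P'.Nonempty ∧ (Cst q P').card ≤ N := by
    intro P' hP'
    rw [hF, mem_filter, mem_powerset] at hP'
    obtain ⟨hsub, -, h34⟩ := hP'
    have hne : P'.Nonempty := by
      rw [nonempty_iff_ne_empty]
      rintro rfl
      have : wt (∅ : Finset ℕ) = 0 := by unfold wt; exact sum_empty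
      rw [this] at h34
      linarith
    refine ⟨hne, ?_⟩
    obtain ⟨g, hg⟩ := hne
    have h1 := card_large P' m B t ht (hB P' hsub) (Cst q P') (by
      intro χ hχ
      rw [SS_const hχ hg, norm_mul, chi_norm χ (hP g (hsub hg)), one_mul, Complex.norm_real,
        Real.norm_eq_abs, abs_of_nonneg (wt_nonneg _)]
      linarith)
    exact_mod_cast h1.trans hN
  obtain ⟨P', hP'F, hmax⟩ := F.exists_max_image (fun P' => (Cst q P').card) ⟨P, hPF⟩
  obtain ⟨hne, hcard⟩ := hcst P' hP'F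
  have hP'F' := hP'F
  rw [hF, mem_filter, mem_powerset] at hP'F
  obtain ⟨hsub, h1, h34⟩ := hP'F
  refine ⟨P', hsub, h34, hne, hcard, fun χ hχ => ?_⟩
  by_contra hcon
  push Not at hcon
  obtain ⟨P'', hsub'', hwt'', hne'', hconst⟩ := step hR hW P' (fun p hp => hP p (hsub hp)) m N B t δ ε
    ht (hB P' hsub) (by linarith) hN hδ hδ1 hδ2 χ hcon
  have hlt : (Cst q P').card < (Cst q P'').card := by
    apply card_lt_card
    rw [ssubset_iff_of_subset]
    · refine ⟨χ, ?_, hχ⟩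
      rw [mem_Cst]
      exact hconst
    · intro ψ hψ
      rw [mem_Cst] at hψ ⊢
      exact fun p hp p' hp' => hψ p (hsub'' hp) p' (hsub'' hp')
  have hw1 : wt P' ≤ wt P := wt_mono hsub
  have h2 : wt P' - ε * wt P ≤ wt P'' := by
    have h3 : ε * wt P' ≤ ε * wt P := mul_le_mul_of_nonneg_left hw1 hε0
    linarith
  have hmem : P'' ∈ F := by
    rw [hF, mem_filter, mem_powerset]
    refine ⟨hsub''.trans hsub, ?_, ?_⟩
    · have h3 : ((Cst q P').card : ℝ) + 1 ≤ (Cst q P'').card := by exact_mod_cast hlt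
      have h4 : (((Cst q P').card : ℝ) + 1) * ε * wt P ≤ (Cst q P'').card * ε * wt P :=
        mul_le_mul_of_nonneg_right (mul_le_mul_of_nonneg_right h3 hε0) hw.le
      linarith
    · have h3 : ((Cst q P').card : ℝ) ≤ N := by exact_mod_cast hcard
      have h4 : (((Cst q P').card : ℝ) + 1) * ε * wt P ≤ ((N : ℝ) + 1) * ε * wt P :=
        mul_le_mul_of_nonneg_right (mul_le_mul_of_nonneg_right (by linarith) hε0) hw.le
      have h5 : ((N : ℝ) + 1) * ε * wt P ≤ 1 / 4 * wt P := mul_le_mul_of_nonneg_right hε hw.le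
      linarith
  have h3 := hmax P'' hmem
  omega

end Pool.Agent.H482.PP
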