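import Mathlib
import Pool.Agent.H482.PP.Sel
import Pool.Agent.H482.WT.StmD

/-! Products of elements of the popular part, and of the whole set. -/

set_option autoImplicit false

namespace Pool.Agent.H482.PP

open Finset Real

open Pool.Agent.H482.WT (wt wt_nonneg wt_mono S_DUA)

/-- the subgroup generated by the ratios of the elements of `P` -/
def ratios (q : ℕ) (P : Finset ℕ) : Subgroup (ZMod q)ˣ :=
  Subgroup.closure {u | ∃ p ∈ P, ∃ p' ∈ P, (u : ZMod q) * (p' : ZMod q) = p}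

theorem const_ratio {q : ℕ} [NeZero q] {P : Finset ℕ} (hP : ∀ p ∈ P, p.Coprime q)
    {χ : DirichletCharacter ℂ q} (hχ : χ ∈ Cst q P) : ∀ h ∈ ratios q P, χ (h : ZMod q) = 1 := by
  rw [mem_Cst] at hχ
  intro h hh
  unfold ratios at hh
  refine Subgroup.closure_induction (p := fun (u : (ZMod q)ˣ) _ => χ (u : ZMod q) = 1) ?_ ?_ ?_ ?_ hh
  · rintro u ⟨p, hp, p', hp', h1⟩
    have h2 := congrArg χ h1
    rw [map_mul, hχ p hp p' hp'] at h2
    have h3 : χ (p' : ZMod q) ≠ 0 := by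
      intro h0
      have := chi_norm χ (hP p' hp')
      rw [h0, norm_zero] at this
      exact one_ne_zero this.symm
    have h4 : (χ (u : ZMod q) - 1) * χ (p' : ZMod q) = 0 := by rw [sub_mul, h2, one_mul, sub_self]
    rcases mul_eq_zero.1 h4 with h5 | h5
    · exact sub_eq_zero.1 h5
    · exact absurd h5 h3
  · rw [Units.val_one, map_one]
  · intro u v _ _ hu hv
    rw [Units.val_mul, map_mul, hu, hv, one_mul]
  · intro u _ hu
    have h1 : χ (((u⁻¹ : (ZMod q)ˣ)) : ZMod q) * χ (u : ZMod q) = 1 := by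
      rw [← map_mul, ← Units.val_mul, inv_mul_cancel, Units.val_one, map_one]
    rwa [hu, mul_one] at h1

/-- the unit of an integer -/
noncomputable def U (q p : ℕ) : (ZMod q)ˣ := if h : p.Coprime q then ZMod.unitOfCoprime p h else 1

theorem U_val {q p : ℕ} (h : p.Coprime q) : ((U q p : (ZMod q)ˣ) : ZMod q) = p := by
  unfold U
  rw [dif_pos h]
  exact ZMod.coe_unitOfCoprime p h

theorem U_ratio {q : ℕ} {P : Finset ℕ} (hP : ∀ p ∈ P, p.Coprime q) {p p' : ℕ} (hp : p ∈ P)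
    (hp' : p' ∈ P) : U q p * (U q p')⁻¹ ∈ ratios q P := by
  apply Subgroup.subset_closure
  refine ⟨p, hp, p', hp', ?_⟩
  rw [← U_val (hP p' hp'), ← Units.val_mul, inv_mul_cancel_right, U_val (hP p hp)]

/-- the index of the group of ratios -/
theorem index_le (hD : S_DUA) {q : ℕ} [NeZero q] {P : Finset ℕ} (hP : ∀ p ∈ P, p.Coprime q) :
    (ratios q P).index ≤ (Cst q P).card := by
  obtain ⟨X, hX1, -, hX3⟩ := hD q (Nat.pos_of_ne_zero (NeZero.ne q)) (ratios q P)
  have h1 : (ratios q P).index * Nat.card (ratios q P) = Nat.totient q := by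
    rw [Subgroup.index_mul_card, Nat.card_eq_fintype_card, ZMod.card_units_eq_totient]
  have h2 : 0 < Nat.card (ratios q P) := Nat.card_pos
  have h3 : (ratios q P).index = X.card := by
    apply Nat.eq_of_mul_eq_mul_right h2
    rw [h1, hX1]
  rw [h3]
  apply card_le_card
  intro χ hχ
  rw [mem_Cst]
  intro p hp p' hp'
  have h4 := hX3 _ (U_ratio hP hp hp') χ hχ
  rw [Units.val_mul, map_mul] at h4
  have h5 : χ ((((U q p')⁻¹ : (ZMod q)ˣ)) : ZMod q) * χ ((U q p' : (ZMod q)ˣ) : ZMod q) = 1 := by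
    rw [← map_mul, ← Units.val_mul, inv_mul_cancel, Units.val_one, map_one]
  calc χ (p : ZMod q) = χ ((U q p : (ZMod q)ˣ) : ZMod q) := by rw [U_val (hP p hp)]
    _ = χ ((U q p : (ZMod q)ˣ) : ZMod q) * (χ ((((U q p')⁻¹ : (ZMod q)ˣ)) : ZMod q) *
        χ ((U q p' : (ZMod q)ˣ) : ZMod q)) := by rw [h5, mul_one]
    _ = χ ((U q p' : (ZMod q)ˣ) : ZMod q) := by rw [← mul_assoc, h4, one_mul]
    _ = χ (p' : ZMod q) := by rw [U_val (hP p' hp')]

/-- products of elements of the popular part fill a coset -/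
theorem cov (hO : S_ORT) {q : ℕ} [NeZero q] (P : Finset ℕ) (hP : ∀ p ∈ P, p.Coprime q) (m k : ℕ)
    (B δ : ℝ) (hw : 0 < wt P) (hB : ∑ χ : DirichletCharacter ℂ q, ‖SS P χ‖ ^ (2 * m) ≤ B)
    (hδ : δ ≤ 1)
    (hS : ∀ χ : DirichletCharacter ℂ q, χ ∉ Cst q P → ‖SS P χ‖ < (1 - δ) * wt P)
    (hk : 2 * m ≤ k) (hkB : (1 - δ) ^ (k - 2 * m) * B < wt P ^ (2 * m)) (g : ℕ) (hg : g ∈ P)
    (a h : (ZMod q)ˣ) (hh : h ∈ ratios q P) (ha : (a : ZMod q) = (g : ZMod q) ^ k * h) :
    ∃ w : Fin k → ℕ, (∀ i, w i ∈ P) ∧ ((∏ i, w i : ℕ) : ZMod q) = a := by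
  classical
  by_contra hcon
  push Not at hcon
  have h0 := hO q P (fun p => (1 / (p : ℂ))) k a hcon
  have h1 : ∀ χ : DirichletCharacter ℂ q, ∑ p ∈ P, 1 / (p : ℂ) * χ (p : ZMod q) = SS P χ := by
    intro χ
    unfold SS
    exact sum_congr rfl fun p _ => by ring
  simp only [h1] at h0
  have h2 := Finset.sum_add_sum_compl (Cst q P)
    (fun χ : DirichletCharacter ℂ q => χ⁻¹ (a : ZMod q) * SS P χ ^ k)
  rw [h0] at h2
  -- the constant characters
  have h3 : ∑ χ ∈ Cst q P, χ⁻¹ (a : ZMod q) * SS P χ ^ k =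
      (((Cst q P).card * wt P ^ k : ℝ) : ℂ) := by
    have h4 : ∀ χ ∈ Cst q P, χ⁻¹ (a : ZMod q) * SS P χ ^ k = ((wt P ^ k : ℝ) : ℂ) := by
      intro χ hχ
      rw [SS_const hχ hg, mul_pow, MulChar.inv_apply_eq_inv', ha, map_mul, map_pow,
        const_ratio hP hχ h hh, mul_one, ← mul_assoc, inv_mul_cancel₀, one_mul]
      · push_cast
        rfl
      · apply pow_ne_zero
        intro h5
        have := chi_norm χ (hP g hg)
        rw [h5, norm_zero] at this
        exact one_ne_zero this.symm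
    rw [sum_congr rfl h4, sum_const, nsmul_eq_mul]
    push_cast
    rfl
  have h1mem : (1 : DirichletCharacter ℂ q) ∈ Cst q P := by
    rw [mem_Cst]
    intro p hp p' hp'
    rw [MulChar.one_apply ((ZMod.isUnit_iff_coprime p q).2 (hP p hp)),
      MulChar.one_apply ((ZMod.isUnit_iff_coprime p' q).2 (hP p' hp'))]
  have hcard : (1 : ℝ) ≤ (Cst q P).card := by
    exact_mod_cast card_pos.2 ⟨_, h1mem⟩
  -- the other characters
  have h5 : ‖∑ χ ∈ (Cst q P)ᶜ, χ⁻¹ (a : ZMod q) * SS P χ ^ k‖ ≤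
      ((1 - δ) * wt P) ^ (k - 2 * m) * B := by
    refine (norm_sum_le _ _).trans ?_
    calc ∑ χ ∈ (Cst q P)ᶜ, ‖χ⁻¹ (a : ZMod q) * SS P χ ^ k‖ ≤
          ∑ χ ∈ (Cst q P)ᶜ, ((1 - δ) * wt P) ^ (k - 2 * m) * ‖SS P χ‖ ^ (2 * m) := by
          apply sum_le_sum
          intro χ hχ
          rw [mem_compl] at hχ
          have h6 := hS χ hχ
          rw [norm_mul, DirichletCharacter.unit_norm_eq_one χ⁻¹ a, one_mul, norm_pow]
          calc ‖SS P χ‖ ^ k = ‖SS P χ‖ ^ (k - 2 * m) * ‖SS P χ‖ ^ (2 * m) := by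
                rw [← pow_add]
                congr 1
                omega
            _ ≤ _ := mul_le_mul_of_nonneg_right
                (pow_le_pow_left₀ (norm_nonneg _) h6.le _) (by positivity)
      _ = ((1 - δ) * wt P) ^ (k - 2 * m) * ∑ χ ∈ (Cst q P)ᶜ, ‖SS P χ‖ ^ (2 * m) := by
          rw [mul_sum]
      _ ≤ _ := by
          apply mul_le_mul_of_nonneg_left _ (pow_nonneg (mul_nonneg (by linarith) hw.le) _)
          exact (sum_le_sum_of_subset_of_nonneg (subset_univ _)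
            (fun _ _ _ => by positivity)).trans hB
  have h6 : ((1 - δ) * wt P) ^ (k - 2 * m) * B < wt P ^ k := by
    calc ((1 - δ) * wt P) ^ (k - 2 * m) * B = wt P ^ (k - 2 * m) * ((1 - δ) ^ (k - 2 * m) * B) := by
          rw [mul_pow]; ring
      _ < wt P ^ (k - 2 * m) * wt P ^ (2 * m) := mul_lt_mul_of_pos_left hkB (by positivity)
      _ = wt P ^ k := by
          rw [← pow_add]
          congr 1
          omega
  have h7 : ∑ χ ∈ (Cst q P)ᶜ, χ⁻¹ (a : ZMod q) * SS P χ ^ k =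
      -(((Cst q P).card * wt P ^ k : ℝ) : ℂ) := by
    rw [h3] at h2
    exact eq_neg_of_add_eq_zero_right h2
  rw [h7, norm_neg, Complex.norm_real, Real.norm_eq_abs, abs_of_nonneg (by positivity)] at h5
  have h8 : wt P ^ k ≤ (Cst q P).card * wt P ^ k := by
    have : 0 < wt P ^ k := by positivity
    nlinarith
  linarith

/-- list products -/
theorem list_val {q : ℕ} {P : Finset ℕ} (hP : ∀ p ∈ P, p.Coprime q) :
    ∀ l : List ℕ, (∀ p ∈ l, p ∈ P) → (((l.map (U q)).prod : (ZMod q)ˣ) : ZMod q) = ((l.prod : ℕ) : ZMod q) := by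
  intro l
  induction l with
  | nil => intro _; simp
  | cons p l ih =>
    intro h
    have h1 := ih fun p' hp' => h p' (List.mem_cons_of_mem _ hp')
    rw [List.map_cons, List.prod_cons, List.prod_cons, Units.val_mul, h1,
      U_val (hP p (h p List.mem_cons_self))]
    push_cast
    rfl

theorem list_ratio {q : ℕ} {P : Finset ℕ} (hP : ∀ p ∈ P, p.Coprime q) {p0 : ℕ} (hp0 : p0 ∈ P) :
    ∀ l : List ℕ, (∀ p ∈ l, p ∈ P) →
      ∃ h ∈ ratios q P, (l.map (U q)).prod = U q p0 ^ l.length * h := by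
  intro l
  induction l with
  | nil => intro _; exact ⟨1, one_mem _, by simp⟩
  | cons p l ih =>
    intro h
    obtain ⟨h1, h2, h3⟩ := ih fun p' hp' => h p' (List.mem_cons_of_mem _ hp')
    refine ⟨U q p * (U q p0)⁻¹ * h1, mul_mem (U_ratio hP (h p List.mem_cons_self) hp0) h2, ?_⟩
    rw [List.map_cons, List.prod_cons, List.length_cons, h3, pow_succ]
    calc U q p * (U q p0 ^ l.length * h1) =
          U q p * (U q p0 ^ l.length * h1) * (U q p0 * (U q p0)⁻¹) := by
          rw [mul_inv_cancel, mul_one]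
      _ = _ := by simp only [mul_comm, mul_left_comm, mul_assoc]

/-- from the popular part to the whole set -/
theorem fin_step (hG : S_GRP) {q : ℕ} [NeZero q] (P : Finset ℕ) (hP : ∀ p ∈ P, p.Coprime q) (g : ℕ)
    (hg : g ∈ P) (H' : Subgroup (ZMod q)ˣ) (n K1 : ℕ) (hH' : H' ≤ ratios q P) (hn : H'.index ≤ n)
    (hcov : ∀ k : ℕ, K1 ≤ k → ∀ a h : (ZMod q)ˣ, h ∈ H' → (a : ZMod q) = (g : ZMod q) ^ k * h →
      ∃ l : List ℕ, l.length = k ∧ (∀ p ∈ l, p ∈ P) ∧ ((l.prod : ℕ) : ZMod q) = a) :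
    ∀ k : ℕ, K1 + n ≤ k → ∀ p0 ∈ P, ∀ a : (ZMod q)ˣ,
      (∃ l : List ℕ, l.length = k ∧ (∀ p ∈ l, p ∈ P) ∧ ((l.prod : ℕ) : ZMod q) = a) ↔
        ∃ h ∈ ratios q P, (a : ZMod q) = (p0 : ZMod q) ^ k * h := by
  classical
  intro k hk p0 hp0 a
  constructor
  · rintro ⟨l, hl1, hl2, hl3⟩
    obtain ⟨h, hh1, hh2⟩ := list_ratio hP hp0 l hl2
    refine ⟨h, hh1, ?_⟩
    rw [← hl3, ← list_val hP l hl2, hh2, Units.val_mul, Units.val_pow_eq_pow_val, U_val (hP p0 hp0),
      hl1]
  · rintro ⟨h, hh, ha⟩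
    -- in terms of `g`
    set h1 : (ZMod q)ˣ := (U q p0 * (U q g)⁻¹) ^ k * h with hh1
    have h1mem : h1 ∈ ratios q P := mul_mem (pow_mem (U_ratio hP hp0 hg) k) hh
    have haU : a = U q g ^ k * h1 := by
      apply Units.ext
      rw [ha, hh1, mul_pow, inv_pow, Units.val_mul, Units.val_mul, Units.val_mul,
        Units.val_pow_eq_pow_val, Units.val_pow_eq_pow_val, U_val (hP p0 hp0)]
      have h2 : (((U q g : (ZMod q)ˣ)) : ZMod q) ^ k * ((((U q g ^ k)⁻¹ : (ZMod q)ˣ)) : ZMod q) = 1 := by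
        rw [← Units.val_pow_eq_pow_val, ← Units.val_mul, mul_inv_cancel, Units.val_one]
      calc (p0 : ZMod q) ^ k * (h : ZMod q) = (p0 : ZMod q) ^ k * (h : ZMod q) *
            ((((U q g : (ZMod q)ˣ)) : ZMod q) ^ k * ((((U q g ^ k)⁻¹ : (ZMod q)ˣ)) : ZMod q)) := by
            rw [h2, mul_one]
        _ = _ := by ring
    set T : Set (ZMod q)ˣ := {u | ∃ p ∈ P, u = U q p * (U q g)⁻¹} with hT
    have h1T : (1 : (ZMod q)ˣ) ∈ T := ⟨g, hg, by rw [mul_inv_cancel]⟩
    have hle : ratios q P ≤ Subgroup.closure (T ∪ (H' : Set (ZMod q)ˣ)) := by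
      unfold ratios
      rw [Subgroup.closure_le]
      rintro u ⟨p, hp, p', hp', hu⟩
      have h2 : u = (U q p * (U q g)⁻¹) * (U q p' * (U q g)⁻¹)⁻¹ := by
        apply Units.ext
        have h3 : u * U q p' = U q p := by
          apply Units.ext
          rw [Units.val_mul, U_val (hP p' hp'), U_val (hP p hp)]
          exact hu
        rw [← h3]
        congr 1
        group
      rw [h2]
      apply mul_mem
      · exact Subgroup.subset_closure (Or.inl ⟨p, hp, rfl⟩)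
      · apply inv_mem
        exact Subgroup.subset_closure (Or.inl ⟨p', hp', rfl⟩)
    obtain ⟨t, ht, h', hh', hprod⟩ := hG (ZMod q)ˣ H' T n h1T hn h1 (hle h1mem)
    choose c hc1 hc2 using ht
    obtain ⟨l2, hl21, hl22, hl23⟩ := hcov (k - n) (by omega) (U q g ^ (k - n) * h') h' hh' (by
      rw [Units.val_mul, Units.val_pow_eq_pow_val, U_val (hP g hg)])
    refine ⟨List.ofFn c ++ l2, ?_, ?_, ?_⟩
    · rw [List.length_append, List.length_ofFn, hl21]
      omega
    · intro p hp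
      rw [List.mem_append, List.mem_ofFn] at hp
      rcases hp with ⟨i, rfl⟩ | hp
      · exact hc1 i
      · exact hl22 p hp
    · rw [List.prod_append, Nat.cast_mul, hl23]
      have h3 : (((List.ofFn c).prod : ℕ) : ZMod q) = ((∏ i, U q (c i) : (ZMod q)ˣ) : ZMod q) := by
        rw [List.prod_ofFn, Nat.cast_prod, Units.coe_prod]
        exact prod_congr rfl fun i _ => (U_val (hP _ (hc1 i))).symm
      rw [h3, ← Units.val_mul]
      congr 1
      rw [haU, hprod, prod_congr rfl (fun i _ => hc2 i), prod_mul_distrib, prod_const, card_univ,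
        Fintype.card_fin]
      have h4 : U q g ^ k = U q g ^ (k - n) * U q g ^ n := by
        rw [← pow_add]
        congr 1
        omega
      rw [h4, inv_pow]
      calc (∏ i, U q (c i)) * (U q g ^ (k - n) * h') = (∏ i, U q (c i)) * (U q g ^ (k - n) * h') *
            (U q g ^ n * (U q g ^ n)⁻¹) := by rw [mul_inv_cancel, mul_one]
        _ = _ := by
            simp only [mul_comm, mul_left_comm, mul_assoc]

end Pool.Agent.H482.PP
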