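import Mathlib
import Pool.Agent.H482.WT.FewU
import Pool.Agent.H482.PP.Momq

/-! Uniform moments of the sums over a prescribed set of primes. -/

set_option autoImplicit false

namespace Pool.Agent.H482.PP

open Finset Real

open Pool.Agent.H482.WT

/-- the moments, uniformly; all moduli together and one modulus -/
theorem mom_uni (hM : S_MOM) (θ : ℝ) (hθ : 0 < θ) : ∃ (C : ℝ) (y0 : ℕ), 1 ≤ C ∧
    ∀ x y : ℕ, y0 ≤ y → 2 ≤ y → y ≤ x → ∃ m : ℕ, 2 ≤ m ∧ (m : ℝ) ≤ C * (log x / log y) ∧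
      ∀ P : Finset ℕ, P ⊆ PR ⌊(y : ℝ) ^ θ⌋₊ y →
        ∑ f ∈ Icc 1 x, ∑ χ ∈ Pm f, ‖∑ p ∈ P, χ (p : ZMod f) / p‖ ^ (2 * m) ≤
          (C * m) ^ (4 * m) := by
  classical
  obtain ⟨C0, hC0, hC1⟩ := hM
  obtain ⟨C1, hC10, hC1'⟩ := Pool.Agent.Helper923.HMertens.mertens_ratio
  obtain ⟨y0, hy0⟩ := scale θ hθ
  have hl2 : 0 < log 2 := Real.log_pos (by norm_num)
  set D := 2 / θ with hD
  have hD0 : 0 < D := by positivity
  set M := C0 + (D + C1 / log 2 + 1) + (1 + D) ^ 2 + 1 with hM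
  have q1 : 0 ≤ C1 / log 2 := by positivity
  have q2 : 0 ≤ (1 + D) ^ 2 := by positivity
  have hM1 : 1 ≤ M := by linarith
  have hC0M : C0 ≤ M := by linarith
  set κ := 2 * D + 4 with hκ
  have hκ1 : 1 ≤ κ := by linarith
  refine ⟨max M κ, y0, hM1.trans (le_max_left _ _), fun x y hyy hy hyx => ?_⟩
  obtain ⟨hly, hu1, hxu, hx0⟩ := base_facts hy hyx
  obtain ⟨hz2, hzy, -⟩ := hy0 y hyy
  set z := ⌊(y : ℝ) ^ θ⌋₊ with hz
  set u := log (x : ℝ) / log y with hu
  set m := ⌈D * u⌉₊ with hm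
  have hm1 : (m : ℝ) < D * u + 1 := Nat.ceil_lt_add_one (by positivity)
  set k := 2 * m + 1 with hk
  have hKu : ((k + 1 : ℕ) : ℝ) ≤ κ * u := by
    have : ((k + 1 : ℕ) : ℝ) = 2 * m + 2 := by rw [hk]; push_cast; ring
    rw [this, hκ]
    nlinarith
  refine ⟨k + 1, by omega, hKu.trans (mul_le_mul_of_nonneg_right (le_max_right _ _) (by linarith)), ?_⟩
  intro P hP
  have hbase : (M * ((k + 1 : ℕ) : ℝ)) ^ (4 * (k + 1)) ≤
      (max M κ * ((k + 1 : ℕ) : ℝ)) ^ (4 * (k + 1)) := by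
    apply pow_le_pow_left₀ (by positivity)
    exact mul_le_mul_of_nonneg_right (le_max_left _ _) (Nat.cast_nonneg _)
  refine le_trans ?_ hbase
  rcases lt_or_ge y z with hyz | hyz
  · have h2 : PR z y = ∅ := by
      unfold PR
      rw [Ioc_eq_empty (by omega), filter_empty]
    rw [h2, subset_empty] at hP
    rw [hP]
    simp only [sum_empty, norm_zero]
    rw [sum_eq_zero]
    · positivity
    · intro f _
      rw [sum_eq_zero]
      intro χ _
      rw [zero_pow (by omega)]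
  -- the coefficients
  set c : ℕ → ℂ := fun b => if b ∈ P then 1 else 0 with hc
  have hc1 : ∀ n, ‖c n‖ ≤ 1 := by
    intro n
    simp only [hc]
    split_ifs <;> simp
  have hsum : ∀ (f : ℕ) (χ : DirichletCharacter ℂ f),
      ∑ p ∈ PR z y, c p * χ (p : ZMod f) / p = ∑ b ∈ P, χ (b : ZMod f) / b := by
    intro f χ
    rw [← sum_subset hP]
    · apply sum_congr rfl
      intro b hb
      simp only [hc]
      rw [if_pos hb, one_mul]
    · intro b _ hb
      simp only [hc]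
      rw [if_neg hb, zero_mul, zero_div]
  have hy1 : (1 : ℝ) < y := by exact_mod_cast (by omega : 1 < y)
  have hz0 : (1 : ℝ) < z := by exact_mod_cast (by omega : 1 < z)
  have hlz : 0 < log (z : ℝ) := Real.log_pos hz0
  have hlz2 : log 2 ≤ log (z : ℝ) := Real.log_le_log (by norm_num) (by exact_mod_cast hz2)
  have hlzy : θ / 2 * log y ≤ log (z : ℝ) := by
    have h1 := Real.log_le_log (by positivity) hzy
    rwa [Real.log_rpow (by linarith)] at h1
  have hlyz : log (z : ℝ) ≤ log y := Real.log_le_log (by linarith) (by exact_mod_cast hyz)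
  have hratio : log (y : ℝ) / log z ≤ D := by
    rw [hD, div_le_iff₀ hlz]
    calc log (y : ℝ) = 2 / θ * (θ / 2 * log y) := by field_simp
      _ ≤ 2 / θ * log z := mul_le_mul_of_nonneg_left hlzy (by positivity)
  have hratio1 : 1 ≤ log (y : ℝ) / log z := by
    rw [le_div_iff₀ hlz]; linarith
  have hRM : (1 + log (y : ℝ) / log z) ^ 2 ≤ M := by
    have h7 : (1 + log (y : ℝ) / log z) ^ 2 ≤ (1 + D) ^ 2 :=
      pow_le_pow_left₀ (by linarith) (by linarith) 2
    linarith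
  set L := ∑ p ∈ PR z y, 1 / (p : ℝ) with hL
  have hL0 : 0 ≤ L := sum_nonneg fun _ _ => by positivity
  have hLle : L ≤ M := by
    have h1 := hC1' z y hz2 hyz
    have h2 := (abs_le.1 h1).2
    have h3 : ∑ p ∈ (Ioc z y).filter Nat.Prime, (1 : ℝ) / p = L := by rw [hL]; rfl
    rw [h3] at h2
    have h4 : log (log (y : ℝ) / log z) ≤ D :=
      ((Real.log_le_sub_one_of_pos (by linarith)).trans (by linarith)).trans hratio
    have h5 : C1 / log z ≤ C1 / log 2 := div_le_div_of_nonneg_left hC10 hl2 hlz2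
    linarith
  have hxz : x ≤ z ^ m := by
    have h1 : ((x : ℝ)) ≤ (z : ℝ) ^ (m : ℝ) := by
      have h2 : log (x : ℝ) ≤ (m : ℝ) * log z := by
        have h3 : D * u ≤ m := Nat.le_ceil _
        calc log (x : ℝ) = D * u * (θ / 2 * log y) := by rw [hxu, hD]; field_simp
          _ ≤ m * log z := mul_le_mul h3 hlzy (by positivity) (Nat.cast_nonneg _)
      rw [← Real.log_rpow (by linarith)] at h2
      exact (Real.log_le_log_iff hx0 (by positivity)).1 h2
    rw [Real.rpow_natCast] at h1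
    exact_mod_cast h1
  have hQ : (x * z) ^ 2 ≤ z ^ (k + 1) := by
    calc (x * z) ^ 2 ≤ (z ^ m * z) ^ 2 := Nat.pow_le_pow_left (Nat.mul_le_mul_right z hxz) 2
      _ = z ^ (k + 1) := by rw [hk]; ring
  have h1 := hC1 z y k x hz2 hyz hQ c hc1
  simp only [hsum] at h1
  have hK1 : (1 : ℝ) ≤ ((k + 1 : ℕ) : ℝ) := by exact_mod_cast (by omega : 1 ≤ k + 1)
  exact alg_est (η := 1) one_pos hM1 hC0 hC0M hL0 hLle (by linarith) hRM (by norm_num; exact hM1) hK1
    (by rw [one_pow, mul_one]; exact h1)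

/-- one modulus -/
theorem mom_one {x q m : ℕ} (hq : 1 ≤ q) (hqx : q ≤ x) {P : Finset ℕ}
    (hP : ∀ p ∈ P, p.Prime ∧ p.Coprime q) {B : ℝ}
    (hB : ∑ f ∈ Icc 1 x, ∑ χ ∈ Pm f, ‖∑ p ∈ P, χ (p : ZMod f) / p‖ ^ (2 * m) ≤ B)
    (inst : NeZero q) :
    ∑ χ : DirichletCharacter ℂ q, ‖∑ p ∈ P, χ (p : ZMod q) / p‖ ^ (2 * m) ≤ B := by
  classical
  set g : (Σ f : ℕ, DirichletCharacter ℂ f) → ℝ := fun e =>
    ‖∑ p ∈ P, e.2 (p : ZMod e.1) / p‖ ^ (2 * m) with hg
  have hdv : dv P q = 0 := by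
    unfold dv
    have h2 : P.filter (fun b => b ∣ q) = ∅ := by
      rw [filter_eq_empty_iff]
      intro b hb hbq
      obtain ⟨hb1, hb4⟩ := hP b hb
      exact hb1.one_lt.ne' (Nat.Coprime.eq_one_of_dvd hb4 hbq)
    rw [h2]
    unfold wt
    exact sum_empty
  have h2 : ∑ χ : DirichletCharacter ℂ q, ‖∑ p ∈ P, χ (p : ZMod q) / p‖ ^ (2 * m) ≤
      ∑ χ : DirichletCharacter ℂ q, g (pr q χ) := by
    apply sum_le_sum
    intro χ _
    simp only [hg, pr]
    apply pow_le_pow_left₀ (norm_nonneg _)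
    have h3 := sum_prim χ P (fun p hp => (hP p hp).1)
    rw [hdv, add_zero] at h3
    exact h3
  have h3 : ∑ χ : DirichletCharacter ℂ q, g (pr q χ) ≤
      ∑ e ∈ (Icc 1 x).sigma (fun f => Pm f), g e := by
    rw [← sum_image (f := g) (s := (univ : Finset (DirichletCharacter ℂ q))) (g := pr q)
      (fun χ _ χ' _ h => pr_inj q h)]
    apply sum_le_sum_of_subset_of_nonneg
    · intro e he
      rw [mem_image] at he
      obtain ⟨χ, -, rfl⟩ := he
      rw [mem_sigma, mem_Icc]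
      have hcn : χ.conductor ∣ q := χ.conductor_dvd_level
      refine ⟨⟨Nat.pos_of_dvd_of_pos hcn (by omega), (Nat.le_of_dvd (by omega) hcn).trans hqx⟩, ?_⟩
      rw [mem_Pm]
      exact χ.primitiveCharacter_isPrimitive
    · intro e _ _
      positivity
  have h4 : ∑ e ∈ (Icc 1 x).sigma (fun f => Pm f), g e =
      ∑ f ∈ Icc 1 x, ∑ χ ∈ Pm f, ‖∑ p ∈ P, χ (p : ZMod f) / p‖ ^ (2 * m) := by
    rw [sum_sigma]
  exact h2.trans (h3.trans (h4.le.trans hB))

end Pool.Agent.H482.PP
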