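import Mathlib
import Pool.Agent.H482.WT.UniC
import Pool.Agent.H482.PP.Mu
import Pool.Agent.H482.PP.Cov

/-! The structure theorem. -/

set_option autoImplicit false

namespace Pool.Agent.H482.PP

open Finset Real

open Pool.Agent.H482.WT

/-- the size of the moments -/
theorem size_est (C1 : ℝ) (hC1 : 1 ≤ C1) (t : ℝ) (ht : 0 < t) : ∃ C : ℝ, 0 < C ∧
    ∀ (x y m : ℕ), 2 ≤ y → y ≤ x → 2 ≤ m → (m : ℝ) ≤ C1 * (log x / log y) →
      ∀ t' : ℝ, t ≤ t' → (C1 * m) ^ (4 * m) / t' ^ (2 * m) ≤ BD C x y ∧ (m : ℝ) ≤ BD C x y := by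
  set M := C1 * max 1 (1 / t) with hM
  have hM1 : 1 ≤ M := by
    rw [hM]
    have h1 : 1 ≤ max 1 (1 / t) := le_max_left _ _
    nlinarith
  refine ⟨8 * C1 * (log M + log C1) + 4 * C1, by
    have h1 := Real.log_nonneg hM1
    have h2 := Real.log_nonneg hC1
    positivity, fun x y m hy hyx hm hmu t' ht' => ?_⟩
  obtain ⟨hly, hu1, -, -⟩ := base_facts hy hyx
  have hm2 : (2 : ℝ) ≤ m := by exact_mod_cast hm
  have hm0 : (0 : ℝ) < m := by linarith
  have ht'0 : 0 < t' := by linarith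
  have hbig : (M * m) ^ (4 * m) ≤ BD (8 * C1 * (log M + log C1) + 4 * C1) x y := by
    unfold BD
    rw [← Real.log_le_iff_le_exp (by positivity), Real.log_pow, Real.log_mul (by linarith) hm0.ne']
    have h1 := fin_est hC1 hM1 hu1 hm2 hmu
    push_cast
    exact h1
  constructor
  · refine le_trans ?_ hbig
    have h1 : (1 / t') ^ (2 * m) ≤ (max 1 (1 / t)) ^ (4 * m) := by
      have h2 : 1 / t' ≤ max 1 (1 / t) := (one_div_le_one_div_of_le ht ht').trans (le_max_right _ _)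
      calc (1 / t') ^ (2 * m) ≤ (max 1 (1 / t)) ^ (2 * m) := pow_le_pow_left₀ (by positivity) h2 _
        _ ≤ _ := pow_le_pow_right₀ (le_max_left _ _) (by omega)
    calc (C1 * m) ^ (4 * m) / t' ^ (2 * m) = (C1 * m) ^ (4 * m) * (1 / t') ^ (2 * m) := by
          rw [one_div, inv_pow]; rfl
      _ ≤ (C1 * m) ^ (4 * m) * (max 1 (1 / t)) ^ (4 * m) :=
          mul_le_mul_of_nonneg_left h1 (by positivity)
      _ = (M * m) ^ (4 * m) := by rw [← mul_pow, hM]; ring
  · refine le_trans ?_ hbig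
    have h1 : (m : ℝ) ≤ M * m := by nlinarith
    exact h1.trans (le_self_pow₀ (by nlinarith) (by omega))

theorem structU (hM : S_MOM) (hR : S_ROO) (hW : S_POW) (hG : S_GRP) (hO : S_ORT) (hD : S_DUA)
    (θ η : ℝ) (hθ : 0 < θ) (hη : 0 < η) : ∃ C : ℝ, 0 < C ∧
    ∀ x y q : ℕ, 2 ≤ y → y ≤ x → 1 ≤ q → q ≤ x → ∀ P : Finset ℕ,
      (∀ p ∈ P, p.Prime ∧ p.Coprime q ∧ (y : ℝ) ^ θ < p ∧ p ≤ y) → η ≤ wt P →
      ((ratios q P).index : ℝ) ≤ BD C x y ∧
      ∀ k : ℕ, BD C x y ≤ k → ∀ p0 ∈ P, ∀ a : (ZMod q)ˣ,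
        (∃ l : List ℕ, l.length = k ∧ (∀ p ∈ l, p ∈ P) ∧ ((l.prod : ℕ) : ZMod q) = a) ↔
          ∃ h ∈ ratios q P, (a : ZMod q) = (p0 : ZMod q) ^ k * h := by
  classical
  obtain ⟨C1, y0, hC1, hmom⟩ := mom_uni hM θ hθ
  obtain ⟨Cb, hCb, hsize⟩ := size_est C1 hC1 (3 / 8 * η) (by positivity)
  obtain ⟨C3, hC3, htriv⟩ := triv_case ((y0 : ℝ) + 1) 1 (by
    have : (0 : ℝ) ≤ y0 := Nat.cast_nonneg _
    linarith) (by norm_num)
  refine ⟨max C3 (5 * (Cb + 2)), lt_max_of_lt_left hC3, fun x y q hy hyx hq hqx P hP hηP => ?_⟩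
  obtain ⟨hly, hu1, hxu, hx0⟩ := base_facts hy hyx
  have inst : NeZero q := ⟨by omega⟩
  have hcop : ∀ p ∈ P, p.Coprime q := fun p hp => (hP p hp).2.1
  have hPne : P.Nonempty := by
    rw [nonempty_iff_ne_empty]
    rintro rfl
    have : wt (∅ : Finset ℕ) = 0 := by unfold wt; exact sum_empty
    linarith
  rcases lt_or_ge y y0 with hyy | hyy
  · -- small `y`
    obtain ⟨g, hg⟩ := hPne
    have h1 : (x : ℝ) ^ 2 ≤ BD C3 x y := by
      apply htriv x y hy hyx
      rw [Real.rpow_one]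
      have h1 : (y : ℝ) ≤ (y0 : ℝ) + 1 := by
        have : (y : ℝ) < y0 := by exact_mod_cast hyy
        linarith
      have h2 : (0 : ℝ) ≤ (y0 : ℝ) + 1 := by positivity
      nlinarith
    have h2 : (q : ℝ) ≤ BD (max C3 (5 * (Cb + 2))) x y := by
      have h3 : (q : ℝ) ≤ x := by exact_mod_cast hqx
      have h4 : (1 : ℝ) ≤ x := by exact_mod_cast (by omega : 1 ≤ x)
      have h5 : (x : ℝ) ≤ (x : ℝ) ^ 2 := by nlinarith
      exact h3.trans (h5.trans (h1.trans (BD_mono (le_max_left _ _) hy hyx)))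
    have hcardG : Nat.card (ZMod q)ˣ ≤ q := by
      rw [Nat.card_eq_fintype_card, ZMod.card_units_eq_totient]
      exact Nat.totient_le q
    constructor
    · have h3 : (ratios q P).index ≤ q := by
        refine le_trans ?_ hcardG
        rw [← Subgroup.index_mul_card (ratios q P)]
        exact Nat.le_mul_of_pos_right _ Nat.card_pos
      have h4 : ((ratios q P).index : ℝ) ≤ q := by exact_mod_cast h3
      exact h4.trans h2
    · intro k hk p0 hp0 a
      refine fin_step hG P hcop g hg ⊥ q 0 bot_le ?_ ?_ k ?_ p0 hp0 a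
      · rw [Subgroup.index_bot]
        exact hcardG
      · intro k _ a h hh ha
        refine ⟨List.replicate k g, List.length_replicate, ?_, ?_⟩
        · intro p hp
          rw [List.eq_of_mem_replicate hp]
          exact hg
        · rw [Subgroup.mem_bot] at hh
          rw [List.prod_replicate, ha, hh, Units.val_one, mul_one]
          push_cast
          rfl
      · have h3 : (q : ℝ) ≤ k := h2.trans hk
        have h4 : q ≤ k := by exact_mod_cast h3
        omega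
  -- the main case
  obtain ⟨m, hm2, hmu, hB⟩ := hmom x y hyy hy hyx
  set B : ℝ := (C1 * m) ^ (4 * m) with hBd
  have hBpos : 0 < B := by positivity
  set t := 3 / 8 * η with ht
  have ht0 : 0 < t := by positivity
  obtain ⟨hs1, hs3⟩ := hsize x y m hy hyx hm2 hmu t le_rfl
  obtain ⟨hs2, -⟩ := hsize x y m hy hyx hm2 hmu (3 / 4 * η) (by rw [ht]; linarith)
  rw [← hBd] at hs1 hs2
  set N := ⌈B / t ^ (2 * m)⌉₊ with hN
  have hN1 : B / t ^ (2 * m) ≤ N := Nat.le_ceil _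
  have hN2 : (N : ℝ) < B / t ^ (2 * m) + 1 := Nat.ceil_lt_add_one (by positivity)
  -- the size
  set X := BD (Cb + 2) x y with hX
  have hX4 : 4 * BD Cb x y ≤ X := by
    have h1 : BD 2 x y = BD 1 x y * BD 1 x y := by rw [BD_mul]; norm_num
    have h2 := two_le_BD hy hyx
    rw [hX, ← BD_mul, h1]
    have h3 := (BD_pos Cb x y).le
    have h4 : (2 : ℝ) * 2 ≤ BD 1 x y * BD 1 x y := mul_le_mul h2 h2 (by norm_num) (by linarith)
    have h5 := mul_le_mul_of_nonneg_left h4 h3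
    linarith
  have hBD1 : 1 ≤ BD Cb x y := by
    have h3 : BD 0 x y ≤ BD Cb x y := BD_mono hCb.le hy hyx
    have h4 : BD 0 x y = 1 := by
      unfold BD
      rw [zero_mul, zero_mul, Real.exp_zero]
    linarith
  have hX4' : 4 ≤ X := by linarith
  have hNX : (N : ℝ) + 1 ≤ X := by linarith
  have hX5 : X ^ 5 ≤ BD (max C3 (5 * (Cb + 2))) x y := by
    rw [hX, BD_pow]
    push_cast
    exact BD_mono (le_max_right _ _) hy hyx
  set δ : ℝ := 3 / (8 * ((N : ℝ) + 1) ^ 3) with hδ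
  set ε : ℝ := 1 / (4 * ((N : ℝ) + 1)) with hε
  have hN0 : (0 : ℝ) ≤ N := Nat.cast_nonneg _
  have hNp : 0 < (N : ℝ) + 1 := by linarith
  have hδ0 : 0 < δ := by positivity
  have hδ1 : 8 * δ * ((N : ℝ) + 1) ^ 2 ≤ 3 := by
    have h1 : 8 * δ * ((N : ℝ) + 1) ^ 2 = 3 / ((N : ℝ) + 1) := by rw [hδ]; field_simp
    rw [h1, div_le_iff₀ hNp]
    linarith
  have hδ2 : δ * (N : ℝ) ^ 2 / 4 ≤ ε := by
    have h1 : δ * (N : ℝ) ^ 2 / 4 ≤ δ * ((N : ℝ) + 1) ^ 2 / 4 := by
      have h2 : (N : ℝ) ^ 2 ≤ ((N : ℝ) + 1) ^ 2 := by nlinarith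
      have := mul_le_mul_of_nonneg_left h2 hδ0.le
      linarith
    have h2 : δ * ((N : ℝ) + 1) ^ 2 / 4 = 3 / 8 * ε := by rw [hδ, hε]; field_simp
    have h3 : 0 < ε := by positivity
    linarith
  have hε1 : ((N : ℝ) + 1) * ε ≤ 1 / 4 := by
    rw [hε]
    have : ((N : ℝ) + 1) * (1 / (4 * ((N : ℝ) + 1))) = 1 / 4 := by field_simp
    rw [this]
  have hδle1 : δ ≤ 1 := by
    have h1 : (1 : ℝ) ≤ ((N : ℝ) + 1) ^ 2 := one_le_pow₀ (by linarith)
    nlinarith
  -- the moments of the subsets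
  have hmomP : ∀ P' ⊆ P, ∑ χ : DirichletCharacter ℂ q, ‖SS P' χ‖ ^ (2 * m) ≤ B := by
    intro P' hP'
    have h1 : P' ⊆ PR ⌊(y : ℝ) ^ θ⌋₊ y := by
      intro p hp
      obtain ⟨hp1, -, hp2, hp3⟩ := hP p (hP' hp)
      unfold PR
      rw [mem_filter, mem_Ioc]
      refine ⟨⟨?_, hp3⟩, hp1⟩
      rw [Nat.floor_lt (by positivity)]
      exact hp2
    exact mom_one hq hqx (fun p hp => ⟨(hP p (hP' hp)).1, (hP p (hP' hp)).2.1⟩) (hB P' h1) inst
  obtain ⟨P', hP'P, hw', hne', hcst, hnc⟩ := sel hR hW P hcop m N B t δ ε ht0 hmomP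
    (by rw [ht]; linarith) hN1 hδ0.le hδ1 hδ2 hε1
  obtain ⟨g, hg⟩ := hne'
  have hcop' : ∀ p ∈ P', p.Coprime q := fun p hp => hcop p (hP'P hp)
  have hind' : (ratios q P').index ≤ N := (index_le hD hcop').trans hcst
  have hle : ratios q P' ≤ ratios q P := by
    unfold ratios
    apply Subgroup.closure_mono
    rintro u ⟨p, hp, p', hp', h⟩
    exact ⟨p, hP'P hp, p', hP'P hp', h⟩
  have hindP : (ratios q P).index ≤ N := by
    have h1 : (ratios q P).index ∣ (ratios q P').index := Subgroup.index_dvd_of_le hle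
    have h2 : 0 < (ratios q P').index := Nat.pos_of_ne_zero Subgroup.index_ne_zero_of_finite
    exact (Nat.le_of_dvd h2 h1).trans hind'
  have hwP' : 3 / 4 * η ≤ wt P' := by linarith
  have hwP'0 : 0 < wt P' := by linarith [hwP', hη]
  -- the number of factors from the popular part
  set B' := B / (3 / 4 * η) ^ (2 * m) with hB'
  have hB'0 : 0 < B' := by positivity
  set n0 := ⌈B' / δ⌉₊ with hn0
  have hn1 : B' / δ ≤ n0 := Nat.le_ceil _
  have hn2 : (n0 : ℝ) < B' / δ + 1 := Nat.ceil_lt_add_one (by positivity)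
  have hkey : ∀ k : ℕ, 2 * m + n0 ≤ k → (1 - δ) ^ (k - 2 * m) * B < wt P' ^ (2 * m) := by
    intro k hk
    have h1 : (1 - δ) ^ (k - 2 * m) ≤ exp (-B') := by
      calc (1 - δ) ^ (k - 2 * m) ≤ (1 - δ) ^ n0 :=
            pow_le_pow_of_le_one (by linarith) (by linarith) (by omega)
        _ ≤ (exp (-δ)) ^ n0 := pow_le_pow_left₀ (by linarith) (Real.one_sub_le_exp_neg δ) _
        _ = exp (-(δ * n0)) := by rw [← Real.exp_nat_mul]; congr 1; ring
        _ ≤ exp (-B') := by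
            apply Real.exp_le_exp.2
            rw [div_le_iff₀ hδ0] at hn1
            linarith
    have h2 : exp (-B') * B' < 1 := by
      rw [Real.exp_neg, inv_mul_lt_iff₀ (Real.exp_pos _), mul_one]
      have := Real.add_one_le_exp B'
      linarith
    have h3 : (3 / 4 * η) ^ (2 * m) ≤ wt P' ^ (2 * m) := pow_le_pow_left₀ (by positivity) hwP' _
    have h4 : B = B' * (3 / 4 * η) ^ (2 * m) := by rw [hB']; field_simp
    have h5 : 0 < (3 / 4 * η) ^ (2 * m) := by positivity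
    calc (1 - δ) ^ (k - 2 * m) * B ≤ exp (-B') * B := mul_le_mul_of_nonneg_right h1 hBpos.le
      _ = exp (-B') * B' * (3 / 4 * η) ^ (2 * m) := by rw [h4]; ring
      _ < 1 * (3 / 4 * η) ^ (2 * m) := mul_lt_mul_of_pos_right h2 h5
      _ ≤ _ := by rw [one_mul]; exact h3
  -- sizes
  have hn3 : (n0 : ℝ) ≤ X ^ 4 := by
    have h1 : B' / δ ≤ X / 4 * (8 / 3 * X ^ 3) := by
      have h2 : 1 / δ = 8 / 3 * ((N : ℝ) + 1) ^ 3 := by rw [hδ]; field_simp
      have h3 : ((N : ℝ) + 1) ^ 3 ≤ X ^ 3 := pow_le_pow_left₀ hNp.le hNX 3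
      calc B' / δ = B' * (1 / δ) := by ring
        _ ≤ X / 4 * (8 / 3 * X ^ 3) := by
            rw [h2]
            apply mul_le_mul (by linarith) (by linarith) (by positivity) (by positivity)
    have h4 : (1 : ℝ) ≤ X ^ 4 / 4 := by
      have : (4 : ℝ) ^ 4 ≤ X ^ 4 := pow_le_pow_left₀ (by norm_num) hX4' 4
      linarith
    have h5 : X / 4 * (8 / 3 * X ^ 3) = 2 / 3 * X ^ 4 := by ring
    linarith
  have hK : ((2 * m + n0 + N : ℕ) : ℝ) ≤ X ^ 5 := by
    push_cast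
    have h1 : X ^ 5 = X * X ^ 4 := by ring
    have h2 : X ≤ X ^ 4 := le_self_pow₀ (by linarith) (by norm_num)
    have h3 : (m : ℝ) ≤ X / 4 := by linarith
    have h4 : 4 * X ^ 4 ≤ X * X ^ 4 := mul_le_mul_of_nonneg_right hX4' (by positivity)
    linarith
  have hNle : (N : ℝ) ≤ X ^ 5 := by
    have h2 : X ≤ X ^ 5 := le_self_pow₀ (by linarith) (by norm_num)
    linarith
  constructor
  · have h1 : ((ratios q P).index : ℝ) ≤ N := by exact_mod_cast hindP
    exact h1.trans (hNle.trans hX5)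
  · intro k hk p0 hp0 a
    refine fin_step hG P hcop g (hP'P hg) (ratios q P') N (2 * m + n0) hle hind' ?_ k ?_ p0 hp0 a
    · intro k hk a h hh ha
      obtain ⟨w, hw1, hw2⟩ := cov hO P' hcop' m k B δ hwP'0 (hmomP P' hP'P) hδle1 hnc (by omega)
        (hkey k hk) g hg a h hh ha
      refine ⟨List.ofFn w, List.length_ofFn, ?_, ?_⟩
      · intro p hp
        rw [List.mem_ofFn] at hp
        obtain ⟨i, rfl⟩ := hp
        exact hP'P (hw1 i)
      · rw [List.prod_ofFn]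
        exact hw2
    · have h1 : ((2 * m + n0 + N : ℕ) : ℝ) ≤ k := hK.trans (hX5.trans hk)
      exact_mod_cast h1

end Pool.Agent.H482.PP
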