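import Mathlib
import Pool.Agent.H482.PP.Stm

/-!
Project PP (helper482, `MP_42948a_nt`): products of boundedly many primes of a prescribed set in
residue classes.  Statements of the tasks.
-/

set_option autoImplicit false

namespace Pool.Agent.H482.PP

open Finset

open scoped Pointwise in
theorem grpT : S_GRP := by
  classical
  intro G _ _ H T N hT hN g hg
  have hfin : Fintype (G ⧸ H) := Fintype.ofFinite _
  have hcard : Fintype.card (G ⧸ H) ≤ N := by
    rw [← Nat.card_eq_fintype_card]
    exact hN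
  let f : G →* G ⧸ H := QuotientGroup.mk' H
  let S : Set (G ⧸ H) := f '' T
  have h1S : (1 : G ⧸ H) ∈ S := ⟨1, hT, map_one f⟩
  have hSne : S.Nonempty := ⟨1, h1S⟩
  let K : Subgroup (G ⧸ H) := powCardSubgroup S hSne
  have hK : ∀ x, x ∈ K ↔ x ∈ S ^ Fintype.card (G ⧸ H) := fun x => Iff.rfl
  have hcpos : 1 ≤ Fintype.card (G ⧸ H) := Fintype.card_pos
  have hSK : S ⊆ K := by
    intro x hx
    apply (hK x).2
    have h2 : x ∈ S ^ 1 := by rw [pow_one]; exact hx
    exact Set.pow_subset_pow_right h1S hcpos h2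
  have hcl : Subgroup.closure (T ∪ (H : Set G)) ≤ K.comap f := by
    rw [Subgroup.closure_le]
    rintro x (hx | hx)
    · exact hSK ⟨x, hx, rfl⟩
    · have h2 : f x = 1 := (QuotientGroup.eq_one_iff x).2 hx
      show f x ∈ K
      rw [h2]
      exact one_mem K
  have hfg : f g ∈ S ^ N := Set.pow_subset_pow_right h1S hcard ((hK _).1 (hcl hg))
  obtain ⟨u, hu⟩ := Set.mem_pow.1 hfg
  choose t ht1 ht2 using fun i => (u i).2
  refine ⟨t, ht1, (∏ i, t i)⁻¹ * g, ?_, by group⟩
  rw [← QuotientGroup.eq]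
  have h2 : f (∏ i, t i) = f g := by
    rw [map_prod, ← hu, List.prod_ofFn]
    exact Finset.prod_congr rfl fun i _ => ht2 i
  exact h2

end Pool.Agent.H482.PP
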