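import Mathlib
import Pool.Agent.H482.PP.Stm

/-!
Project PP (helper482, `MP_42948a_nt`): products of boundedly many primes of a prescribed set in
residue classes.  Statements of the tasks.
-/

set_option autoImplicit false

namespace Pool.Agent.H482.PP

open Finset

theorem ortT : S_ORT := by
  intro q _ P ω k a h
  have e : ∀ χ : DirichletCharacter ℂ q,
      χ⁻¹ (a : ZMod q) * (∑ p ∈ P, ω p * χ (p : ZMod q)) ^ k =
      ∑ w ∈ Fintype.piFinset (fun _ : Fin k => P), (∏ i, ω (w i)) *
        (χ (a : ZMod q)⁻¹ * χ ((∏ i, w i : ℕ) : ZMod q)) := by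
    intro χ
    have e1 : (∑ p ∈ P, ω p * χ (p : ZMod q)) ^ k =
        ∑ w ∈ Fintype.piFinset (fun _ : Fin k => P), ∏ i, (ω (w i) * χ (w i : ZMod q)) := by
      have e3 := prod_univ_sum (fun _ : Fin k => P) (fun _ p => ω p * χ (p : ZMod q))
      rw [prod_const, card_univ, Fintype.card_fin] at e3
      exact e3
    have e2 : χ⁻¹ (a : ZMod q) = χ (a : ZMod q)⁻¹ := by
      rw [MulChar.inv_apply, Ring.inverse_unit, ZMod.inv_coe_unit]
    rw [e1, mul_sum, e2]
    refine sum_congr rfl fun w _ => ?_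
    rw [prod_mul_distrib, Nat.cast_prod, map_prod]
    ring
  rw [sum_congr rfl fun χ _ => e χ, sum_comm]
  refine sum_eq_zero fun w hw => ?_
  rw [← mul_sum, DirichletCharacter.sum_char_inv_mul_char_eq ℂ a.isUnit, if_neg, mul_zero]
  exact (h w fun i => Fintype.mem_piFinset.mp hw i).symm

end Pool.Agent.H482.PP
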