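import Mathlib
import Pool.Agent.H482.PP.Stm

/-!
Project PP (helper482, `MP_42948a_nt`): products of boundedly many primes of a prescribed set in
residue classes.  Statements of the tasks.
-/

set_option autoImplicit false

namespace Pool.Agent.H482.PP

open Finset

theorem powT_dist {w : ℂ} (hw : ‖w‖ = 1) : ‖w - 1‖ ^ 2 = 2 * (1 - w.re) := by
  have h1 : w.re ^ 2 + w.im ^ 2 = 1 := by
    have := Complex.sq_norm w
    rw [hw, Complex.normSq_apply] at this
    linarith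
  rw [Complex.sq_norm, Complex.normSq_apply]
  simp only [Complex.sub_re, Complex.one_re, Complex.sub_im, Complex.one_im, sub_zero]
  linarith

theorem powT_pow {w : ℂ} (hw : ‖w‖ = 1) (j : ℕ) : ‖w ^ j - 1‖ ≤ j * ‖w - 1‖ := by
  induction j with
  | zero => simp
  | succ j ih =>
    have h1 : w ^ (j + 1) - 1 = w * (w ^ j - 1) + (w - 1) := by ring
    rw [h1]
    refine (norm_add_le _ _).trans ?_
    rw [norm_mul, hw, one_mul]
    push_cast
    linarith

theorem powT : S_POW := by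
  intro P ω z j δ hδ hδ1 hj hω hz h
  set W := ∑ p ∈ P, ω p with hW
  set S := ∑ p ∈ P, (ω p : ℂ) * z p with hS
  have hW0 : 0 ≤ W := Finset.sum_nonneg hω
  obtain ⟨c, hc1, hc2⟩ : ∃ c : ℂ, ‖c‖ = 1 ∧ c * S = (‖S‖ : ℂ) := by
    refine ⟨Complex.exp ((-(Complex.arg S) : ℝ) * Complex.I), Complex.norm_exp_ofReal_mul_I _, ?_⟩
    have h1 := Complex.norm_mul_exp_arg_mul_I S
    have h2 : Complex.exp ((-(Complex.arg S) : ℝ) * Complex.I) * (‖S‖ * Complex.exp (Complex.arg S * Complex.I)) =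
        ‖S‖ := by
      rw [mul_left_comm, ← Complex.exp_add]
      push_cast
      rw [neg_mul, neg_add_cancel, Complex.exp_zero, mul_one]
    rw [h1] at h2
    exact h2
  have hw : ∀ p ∈ P, ‖c * z p‖ = 1 := by
    intro p hp
    rw [norm_mul, hc1, hz p hp, one_mul]
  -- the real parts
  have hre : ∑ p ∈ P, ω p * (c * z p).re = ‖S‖ := by
    have h1 : c * S = ∑ p ∈ P, (ω p : ℂ) * (c * z p) := by
      rw [hS, Finset.mul_sum]
      exact Finset.sum_congr rfl fun p _ => by ring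
    have h2 := congrArg Complex.re h1
    rw [hc2, Complex.ofReal_re, Complex.re_sum] at h2
    rw [h2]
    exact Finset.sum_congr rfl fun p _ => by rw [Complex.re_ofReal_mul]
  have hpow : ∀ p ∈ P, 1 - (j : ℝ) ^ 2 * (1 - (c * z p).re) ≤ ((c * z p) ^ j).re := by
    intro p hp
    have h1 := powT_dist (hw p hp)
    have h2 := powT_dist (w := (c * z p) ^ j) (by rw [norm_pow, hw p hp, one_pow])
    have h3 := powT_pow (hw p hp) j
    have h4 : ‖(c * z p) ^ j - 1‖ ^ 2 ≤ (j * ‖c * z p - 1‖) ^ 2 :=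
      pow_le_pow_left₀ (norm_nonneg _) h3 2
    rw [mul_pow (j : ℝ), h1, h2] at h4
    linarith
  have hsum : W - (j : ℝ) ^ 2 * (W - ‖S‖) ≤ (∑ p ∈ P, (ω p : ℂ) * (c * z p) ^ j).re := by
    rw [Complex.re_sum, ← hre, hW, ← Finset.sum_sub_distrib, Finset.mul_sum, ← Finset.sum_sub_distrib]
    refine Finset.sum_le_sum fun p hp => ?_
    rw [Complex.re_ofReal_mul]
    have := mul_le_mul_of_nonneg_left (hpow p hp) (hω p hp)
    linarith
  have hnorm : ‖∑ p ∈ P, (ω p : ℂ) * z p ^ j‖ = ‖∑ p ∈ P, (ω p : ℂ) * (c * z p) ^ j‖ := by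
    have h1 : ∑ p ∈ P, (ω p : ℂ) * (c * z p) ^ j = c ^ j * ∑ p ∈ P, (ω p : ℂ) * z p ^ j := by
      rw [Finset.mul_sum]
      exact Finset.sum_congr rfl fun p _ => by rw [mul_pow]; ring
    rw [h1, norm_mul, norm_pow, hc1, one_pow, one_mul]
  rw [hnorm]
  have h5 := (hsum.trans (Complex.re_le_norm _))
  have h6 : (j : ℝ) ^ 2 * (W - ‖S‖) ≤ (j : ℝ) ^ 2 * (δ * W) :=
    mul_le_mul_of_nonneg_left (by linarith) (by positivity)
  have h7 : (j : ℝ) ^ 2 * (δ * W) ≤ 3 / 8 * W := by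
    have : (j : ℝ) ^ 2 * (δ * W) = (δ * (j : ℝ) ^ 2) * W := by ring
    rw [this]
    exact mul_le_mul_of_nonneg_right (by linarith) hW0
  linarith

end Pool.Agent.H482.PP
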