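import Mathlib
import Pool.Agent.H482.PP.Stm

/-!
Project PP (helper482, `MP_42948a_nt`): products of boundedly many primes of a prescribed set in
residue classes.  Task ROO.
-/

set_option autoImplicit false

namespace Pool.Agent.H482.PP

open Finset

namespace ROO

/-- A root of unity of order `d` which is not `1` is not close to `1`. -/
lemma root_bd {d : ℕ} (hd : 1 ≤ d) {u : ℂ} (hu : u ^ d = 1) (hu1 : u ≠ 1) :
    8 / (d : ℝ) ^ 2 ≤ 1 - u.re := by
  have hne : NeZero d := ⟨by omega⟩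
  have hd0 : (0 : ℝ) < d := by exact_mod_cast hd
  have hpi := Real.pi_pos
  have hunit : IsUnit u := IsUnit.of_pow_eq_one hu (by omega)
  obtain ⟨v, rfl⟩ := hunit
  have hv : v ∈ rootsOfUnity d ℂ := by
    rw [mem_rootsOfUnity]
    apply Units.ext
    rw [Units.val_pow_eq_pow_val, hu, Units.val_one]
  obtain ⟨k, hk, hkv⟩ := (Complex.mem_rootsOfUnity d v).1 hv
  have hk0 : k ≠ 0 := by
    rintro rfl
    apply hu1
    rw [← hkv]
    simp
  have hk1 : (1 : ℝ) ≤ k := by exact_mod_cast Nat.one_le_iff_ne_zero.2 hk0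
  have hkd : (k : ℝ) + 1 ≤ d := by exact_mod_cast hk
  have hre : (v : ℂ).re = Real.cos (2 * (Real.pi * (k / d))) := by
    rw [← hkv]
    have e : (2 * (Real.pi : ℂ) * Complex.I * ((k : ℂ) / (d : ℂ))) =
        ((2 * (Real.pi * (k / d)) : ℝ) : ℂ) * Complex.I := by
      push_cast
      ring
    rw [e, Complex.exp_ofReal_mul_I_re]
  rw [hre, Real.cos_two_mul]
  set t := Real.pi * ((k : ℝ) / d) with ht
  have hsin : 2 / (d : ℝ) ≤ Real.sin t := by
    rcases le_or_gt ((k : ℝ) / d) (1 / 2) with h | h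
    · have h1 : 0 ≤ t := by positivity
      have h2 : t ≤ Real.pi / 2 := by
        rw [ht]; nlinarith
      refine le_trans ?_ (Real.mul_le_sin h1 h2)
      rw [ht]
      have e : 2 / Real.pi * (Real.pi * ((k : ℝ) / d)) = 2 * k / d := by field_simp
      rw [e]
      gcongr
      linarith
    · have h0 : (k : ℝ) / d ≤ 1 := by
        rw [div_le_one hd0]; linarith
      have h1 : 0 ≤ Real.pi - t := by
        rw [ht]; nlinarith
      have h2 : Real.pi - t ≤ Real.pi / 2 := by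
        rw [ht]; nlinarith
      rw [← Real.sin_pi_sub]
      refine le_trans ?_ (Real.mul_le_sin h1 h2)
      rw [ht]
      have e : 2 / Real.pi * (Real.pi - Real.pi * ((k : ℝ) / d)) = 2 * (d - k) / d := by
        field_simp
      rw [e]
      gcongr
      linarith
  have h3 : (2 / (d : ℝ)) ^ 2 ≤ Real.sin t ^ 2 := by gcongr
  have h4 := Real.sin_sq_add_cos_sq t
  have h5 : 8 / (d : ℝ) ^ 2 = 2 * (2 / (d : ℝ)) ^ 2 := by
    rw [div_pow]; ring
  rw [h5]
  linarith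

/-- The square of the norm of a weighted sum. -/
lemma norm_sum_sq (P : Finset ℕ) (ω : ℕ → ℝ) (z : ℕ → ℂ) :
    ‖∑ p ∈ P, (ω p : ℂ) * z p‖ ^ 2 =
      ∑ p ∈ P, ∑ p' ∈ P, ω p * ω p' * (z p * (starRingEnd ℂ) (z p')).re := by
  set S := ∑ p ∈ P, (ω p : ℂ) * z p with hS
  have h1 : ‖S‖ ^ 2 = (S * (starRingEnd ℂ) S).re := by
    rw [Complex.mul_conj, Complex.ofReal_re, Complex.normSq_eq_norm_sq]
  rw [h1, hS, map_sum, Finset.sum_mul_sum, Complex.re_sum]
  refine Finset.sum_congr rfl fun p _ => ?_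
  rw [Complex.re_sum]
  refine Finset.sum_congr rfl fun p' _ => ?_
  rw [map_mul, Complex.conj_ofReal]
  have e : (ω p : ℂ) * z p * ((ω p' : ℂ) * (starRingEnd ℂ) (z p')) =
      ((ω p * ω p' : ℝ) : ℂ) * (z p * (starRingEnd ℂ) (z p')) := by
    push_cast
    ring
  rw [e, Complex.re_ofReal_mul]

end ROO

theorem rooT : S_ROO := by
  intro P ω z d δ hd hδ hδ1 hω hW hz hS
  set W := ∑ p ∈ P, ω p with hWdef
  have hd0 : (0 : ℝ) < d := by exact_mod_cast hd
  by_contra hcon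
  push Not at hcon
  have hn : ∀ p ∈ P, ‖z p‖ = 1 := fun p hp =>
    Complex.norm_eq_one_of_pow_eq_one (hz p hp) (by omega)
  have hinv : ∀ p ∈ P, z p * (starRingEnd ℂ) (z p) = 1 := by
    intro p hp
    rw [Complex.mul_conj, Complex.normSq_eq_norm_sq, hn p hp]
    simp
  -- the pairs
  have hpair : ∀ p ∈ P, ∀ p' ∈ P, (if z p' ≠ z p then 8 / (d : ℝ) ^ 2 else 0) ≤
      1 - (z p * (starRingEnd ℂ) (z p')).re := by
    intro p hp p' hp'
    have hnorm : ‖z p * (starRingEnd ℂ) (z p')‖ = 1 := by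
      rw [norm_mul, RCLike.norm_conj, hn p hp, hn p' hp', one_mul]
    split_ifs with h
    · refine ROO.root_bd hd ?_ ?_
      · rw [mul_pow, ← map_pow, hz p hp, hz p' hp', map_one, one_mul]
      · intro h1
        apply h
        have h2 : z p * (starRingEnd ℂ) (z p') * z p' = 1 * z p' := by rw [h1]
        rw [mul_assoc, mul_comm ((starRingEnd ℂ) (z p')) (z p'), hinv p' hp', mul_one,
          one_mul] at h2
        exact h2.symm
    · have := Complex.re_le_norm (z p * (starRingEnd ℂ) (z p'))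
      rw [hnorm] at this
      linarith
  have hsq : (1 - δ) ^ 2 * W ^ 2 ≤ ‖∑ p ∈ P, (ω p : ℂ) * z p‖ ^ 2 := by
    rw [← mul_pow]
    have : 0 ≤ (1 - δ) * W := mul_nonneg (by linarith) hW.le
    gcongr
  rw [ROO.norm_sum_sq] at hsq
  have hWW : W ^ 2 = ∑ p ∈ P, ∑ p' ∈ P, ω p * ω p' := by
    rw [sq, hWdef, Finset.sum_mul_sum]
  have hdef : ∑ p ∈ P, ∑ p' ∈ P, ω p * ω p' * (if z p' ≠ z p then 8 / (d : ℝ) ^ 2 else 0) ≤
      2 * δ * W ^ 2 := by
    calc ∑ p ∈ P, ∑ p' ∈ P, ω p * ω p' * (if z p' ≠ z p then 8 / (d : ℝ) ^ 2 else 0)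
        ≤ ∑ p ∈ P, ∑ p' ∈ P, ω p * ω p' * (1 - (z p * (starRingEnd ℂ) (z p')).re) := by
          refine Finset.sum_le_sum fun p hp => Finset.sum_le_sum fun p' hp' => ?_
          exact mul_le_mul_of_nonneg_left (hpair p hp p' hp') (mul_nonneg (hω p hp) (hω p' hp'))
      _ = W ^ 2 - ∑ p ∈ P, ∑ p' ∈ P, ω p * ω p' * (z p * (starRingEnd ℂ) (z p')).re := by
          rw [hWW, ← Finset.sum_sub_distrib]
          refine Finset.sum_congr rfl fun p _ => ?_
          rw [← Finset.sum_sub_distrib]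
          refine Finset.sum_congr rfl fun p' _ => ?_
          ring
      _ ≤ W ^ 2 - (1 - δ) ^ 2 * W ^ 2 := by linarith
      _ ≤ 2 * δ * W ^ 2 := by nlinarith [mul_nonneg (sq_nonneg δ) (sq_nonneg W)]
  set B := δ * (d : ℝ) ^ 2 / 4 * W with hB
  have hstep : ∑ p ∈ P, ∑ p' ∈ P, ω p * ω p' * (if z p' ≠ z p then 8 / (d : ℝ) ^ 2 else 0) =
      8 / (d : ℝ) ^ 2 * ∑ p ∈ P, ω p * ∑ p' ∈ P.filter (fun p' => z p' ≠ z p), ω p' := by
    rw [Finset.mul_sum]
    refine Finset.sum_congr rfl fun p _ => ?_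
    rw [Finset.sum_filter, Finset.mul_sum, Finset.mul_sum]
    refine Finset.sum_congr rfl fun p' _ => ?_
    split_ifs
    · ring
    · ring
  rw [hstep] at hdef
  have hlt : ∑ p ∈ P, ω p * B <
      ∑ p ∈ P, ω p * ∑ p' ∈ P.filter (fun p' => z p' ≠ z p), ω p' := by
    obtain ⟨p, hp, hpp⟩ : ∃ p ∈ P, 0 < ω p := by
      by_contra hno
      push Not at hno
      have : W ≤ 0 := Finset.sum_nonpos hno
      linarith
    refine Finset.sum_lt_sum (fun p hp => mul_le_mul_of_nonneg_left (hcon p hp).le (hω p hp))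
      ⟨p, hp, mul_lt_mul_of_pos_left (hcon p hp) hpp⟩
  rw [← Finset.sum_mul, ← hWdef] at hlt
  have h8 : 8 / (d : ℝ) ^ 2 * (W * B) = 2 * δ * W ^ 2 := by
    rw [hB]
    field_simp
    ring
  have h9 : 8 / (d : ℝ) ^ 2 * (W * B) <
      8 / (d : ℝ) ^ 2 * ∑ p ∈ P, ω p * ∑ p' ∈ P.filter (fun p' => z p' ≠ z p), ω p' :=
    mul_lt_mul_of_pos_left hlt (by positivity)
  linarith

end Pool.Agent.H482.PP
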